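import Pool.Agent.TH629.CM.AJ

/-!
# Injectivity of the Abel-Jacobi maps and identities for correspondences and automorphisms

`𝒱` is a class of smooth projective geometrically irreducible varieties over the field `k` closed
under products (for the problem: all of them, over a number field `k ⊂ ℂ`), `C` is the theory of the
Chow groups with rational coefficients and `H` a cohomology theory, for example singular cohomology
(in the form of their formal properties, `IsChowProj`, `IsWeilProj`), and `T` the data of the
Abel-Jacobi maps `AJ^m` on the groups `CH^m(X)_hom ⊗ ℚ`, which are additive and functorial for
correspondences (`IsFunctorial`). `T.Ker m z` says that `z ∈ CH^m(X) ⊗ ℚ` is homologically trivial and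
in the kernel of `AJ^m`. The conjecture of Beilinson and Bloch is the statement
`∀ m n, AJInjectiveIn T m n`, where `AJInjectiveIn T m n` says that `AJ^m` is injective for all `X` of
dimension `n`.

An identity `a` (`Ident`) consists of a residually finite group `Q`, a finite subset `T` of `Q`, and a
non-zero element `p` of the free product of the group algebra `ℚ[Q]` and of the algebra of
non-commutative polynomials in variables `y_j` and in their transposes, that is, a linear
combination of words `g_0 v_1 g_1 ⋯ v_N g_N`, with `g_i` in `Q` and each `v_i` a variable or the
transpose of a variable. `HoldsOnKernels T m a n 𝒰` says that `p` acts as zero on the kernel of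
`AJ^m` on `CH^m(U)_hom ⊗ ℚ` for all varieties `U` of dimension `n` in the class `𝒰`, all actions of
`Q` on `U` for which the elements of the finite subset different from `1` act non-trivially, and all
correspondences `P_j ∈ CH^n(U × U)` in the place of the variables.

Theorem. For each `m` and each dimension `n`, the maps `AJ^m` are injective for all varieties of
dimension `n` if and only if a single identity `a` holds in dimension `n` for their kernels. They are
injective for all varieties if and only if for infinitely many `n` some identity `a_n` holds in
dimension `n`; the groups `Q_n` and the elements `p_n ≠ 0` are arbitrary.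

For example, `AJ^m` is injective for all varieties of dimension `n` if and only if all involutions of
`n`-dimensional varieties `U` act trivially on its kernel (`Q` of order two, `p = τ - 1`); if and only
if, for one given finite group `Q`, there are no non-zero `Q`-invariants in the kernel for all
faithful actions of `Q` on varieties `U` of dimension `n` (`p` the sum of the elements of `Q`); if
and only if all correspondences in `CH^n(U × U)` commute on the kernel (`Q` trivial,
`p = y_1 y_2 - y_2 y_1`); if and only if each of them acts as its transpose; if and only if they
satisfy any other given polynomial identity; if and only if for one given non-trivial word `w` in a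
free group `w(g_1, …, g_r)` acts trivially on the kernel for all automorphisms `g_i` of all `U` of
dimension `n`. In each case only varieties `U` in a class `𝒰 n` need be considered, for example those
whose canonical class is ample.

Hypothesis `IsLarge C 𝒰` (theorem of Bertini): for each finite set `I` and each `S` of dimension `n`
there is an `n`-dimensional complete intersection, in the class `𝒰 n`, of symmetric divisors in the
power `S^I`, on which the permutations of `I` act. Hypothesis `hdim`: there are varieties of all
dimensions.

Proof. Let `x` be in the kernel of `AJ^m` on `S`, `S` of dimension `n`, and `N` the largest number of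
variables in the words of `p`. As `Q` is residually finite it acts on a finite set `B` with a point
`b` at which the elements of `Q` occurring in `p`, those of the finite subset and `1` take different
values. Let `U` be the complete intersection in the power of `S` with exponent `I = B × {0, …, N}` and
`f_{b, i} : U → S` the projections. For different `(b, i)` and `(c, j)` the correspondence
`f_{c, j *} f_{b, i}^*` is a multiple of `(h × S + S × h)^n`, which acts as zero on numerically
trivial cycles, and `f_{b, i *} f_{b, i}^*` is multiplication by a number `d ≠ 0`. The group `Q` acts
on `U` through `B`. Take a word `w = g_0 v_1 g_1 ⋯ v_N g_N` of the maximal length `N` which occurs in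
`p`; by a Vandermonde argument only the words of length `N` matter. In the place of each variable one
puts the sum of the correspondences `f_{b, i}^* f_{g_{i-1} b, i-1 *}` for the `i` for which `v_i` is
this variable, and of their transposes for the `i` for which `v_i` is its transpose. Then `p` maps
`f_{b, 0}^* x` to `p_w d^N f_{g_N b, N}^* x` plus terms in the spans of the images of the other
`f_{c, j}^*`; these pull-backs are independent. The passage between different dimensions uses
products with varieties `V` and zero-cycles of degree one on them.
-/

open CategoryTheory AlgebraicGeometry

set_option autoImplicit false

universe u v w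

namespace Pool.Agent.Results.MP_a1cc03_ag.IdentitiesOnKernels

open Pool.Agent.H914 Pool.Agent.W492.BB Pool.Agent.TH133 Pool.Agent.TH629.CM.Th

/-- The injectivity of the Abel-Jacobi maps on `CH^m(X)_hom ⊗ ℚ` for all `X` of dimension `n` is
equivalent to each single identity `a n` in dimension `n` on their kernels, and the injectivity for
all `X` is equivalent to the validity of the identity `a n` for infinitely many `n`. -/
theorem result {k : Type u} [Field k] {𝒱 : VarClass k} (C : TheoryData.{u, v, 0} 𝒱 ℚ)
    [IsChowProj C] {K : Type w} [Field K] (H : WeilTheoryData.{u, v, w} C K) [IsWeilProj H]
    (T : AbelJacobi H) (hT : T.IsFunctorial) (hdim : ∀ e : ℕ, ∃ V : 𝒱.Obj, V.dim = e)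
    (𝒰 : ℕ → 𝒱.Obj → Prop) (h𝒰 : IsLarge C 𝒰) (m : ℕ) (a : ℕ → Ident) :
    (∀ n, AJInjectiveIn T m n ↔ HoldsOnKernels T m (a n) n (𝒰 n)) ∧
      ((∀ n, AJInjectiveIn T m n) ↔ ∀ N : ℕ, ∃ n, N ≤ n ∧ HoldsOnKernels T m (a n) n (𝒰 n)) :=
  ⟨fun n => aj_iff T hT m n _ (h𝒰 n).1 (h𝒰 n).2 (a n), aj_all_iff T hT m hdim 𝒰 h𝒰 a⟩

end Pool.Agent.Results.MP_a1cc03_ag.IdentitiesOnKernels
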