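import Pool.Agent.TH127.PD.Main

/-!
# Injectivity of Abel-Jacobi maps and products with divisors algebraically equivalent to zero

`k` is a field (a number field, for the problem), `𝒱` a class of smooth projective geometrically
irreducible varieties over `k` closed under products (for example all of them), `C` the Chow groups
with rational coefficients (in the form of their formal properties, `IsChowProj`), `H` a Weil
cohomology theory (`IsWeilProj`) and `T` the Abel-Jacobi maps (in the form of their functoriality,
`AbelJacobi.IsFunctorial`, and of the reducibility theorem of Poincare for the Jacobians of curves,
`AbelJacobi.HasCurveProjectors`). For a number field `k ⊂ ℂ` one takes `H` to be singular cohomology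
and `T` the Abel-Jacobi maps to the Griffiths intermediate Jacobians, tensored with `ℚ`.

The following are equivalent:

(1) all Abel-Jacobi maps are injective on the algebraically trivial cycles;

(2) `D w = 0` for all `X`, all algebraically trivial divisor classes `D` on `X` and all homologically
trivial cycles `w` on `X`;

(3) `z × w = 0` for all algebraically trivial `z` on `X` and all homologically trivial `w` on `Y`;

(4) homologically trivial correspondences act as zero on algebraically trivial cycles.

So Q1 for `k` is equivalent to: (a) every cycle in the kernel of an Abel-Jacobi map is algebraically
trivial, and (b) `Pic^0(X) · CH(X)_hom = 0` for all `X`. The statement (b) contains no Abel-Jacobi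
map, only products with divisors. For a single `X` and a single codimension `i`: the Abel-Jacobi map
is injective on the algebraically trivial cycles in `CH^i(X)` if and only if all homologically
trivial `Γ ∈ CH^i(B × X)`, with `B` a curve, act as zero on the Jacobian of `B`.

Proof. Let `z = Γ_* c` be in the kernel of the Abel-Jacobi map, with `c` of degree zero on the curve
`B`. By Poincare reducibility `e_* c = c` for some `e ∈ CH^1(B × B)` such that `Γ ∘ e` acts as zero on
`H^1(B)`. If `p` is the projector of `B` on `H^1(B)`, then `p_* c = c`, and `Γ' = Γ ∘ e ∘ p` is
homologically trivial with `Γ'_* c = z`. Finally `Γ'_* c` is the push-forward of the product of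
`Γ'` and of the algebraically trivial divisor `c × X` on `B × X`. Conversely, `z ↦ z × w` is
the action of a homologically trivial correspondence if `w` is homologically trivial, and those act
as zero on intermediate Jacobians and preserve algebraic triviality.
-/

open CategoryTheory AlgebraicGeometry

set_option autoImplicit false

universe u v w

namespace Pool.Agent.Results.MP_a1cc03_ag.ProductsWithDivisors

open Pool.Agent.H914 Pool.Agent.W492.BB Pool.Agent.TH133 Pool.Agent.TH127.PD

/-- The injectivity of all Abel-Jacobi maps on algebraically trivial cycles is equivalent to the
vanishing of the products of algebraically trivial divisors with homologically trivial cycles, to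
the vanishing of the exterior products of algebraically trivial with homologically trivial cycles,
and to the vanishing of the action of homologically trivial correspondences on algebraically trivial
cycles. For each `X` and `i` the Abel-Jacobi map is injective on the algebraically trivial cycles in
`CH^i(X)` iff all homologically trivial `Γ ∈ CH^i(B × X)`, `B` a curve, act as zero on the Jacobian
of `B`. All Abel-Jacobi maps are injective (Q1) iff their kernels consist of algebraically trivial
cycles and the products of algebraically trivial divisors with homologically trivial cycles
vanish. -/
theorem result {k : Type u} [Field k] {𝒱 : VarClass k} (C : TheoryData.{u, v, 0} 𝒱 ℚ)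
    [IsChowProj C] {K : Type w} [Field K] (H : WeilTheoryData.{u, v, w} C K) [IsWeilProj H]
    (T : AbelJacobi H) (hT : T.IsFunctorial) (hT' : T.HasCurveProjectors) :
    List.TFAE [∀ (X : 𝒱.Obj) (i : ℕ), InjectiveOnAlg T X i, DivisorProductsVanish H,
      ExteriorProductsVanish H, HomTrivialKillAlg H] ∧
    (∀ (X : 𝒱.Obj) (i : ℕ), InjectiveOnAlg T X i ↔ KillJacobians H X i) ∧
    (AJInjective T ↔ KerInAlg T ∧ DivisorProductsVanish H) :=
  ⟨alg_tfae hT hT', injectiveOnAlg_iff hT hT', injective_iff hT hT'⟩

end Pool.Agent.Results.MP_a1cc03_ag.ProductsWithDivisors
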